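import Pool.Agent.Q224.CR.Fpt

/-!
# Deciding `cr(G) ≤ k` is fixed-parameter tractable

The definitions of `cr` are in `Pool/Agent/Q224/CR/Defs.lean`. The key fact is that
`cr(G) ≤ k` implies that `G` has at most `2 k` vertices (`Q224.CR.card_le`).
-/

set_option autoImplicit false

namespace Pool.Agent.Results.MP_3f5cd8_lc.ColourReversalFPT

open Pool.Agent.NPC _root_.Q224.CR

/-- There is a single Turing machine which, given the adjacency matrix of a graph `G` on `n`
vertices and the number `k` (in unary), outputs the coding of the Boolean which says whether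
`cr(G) ≤ k`, within `f k * (n + 1) ^ c` steps, where `f` is a computable function and `c` is a
constant. -/
theorem result :
    ∃ (tm : Turing.FinTM2) (e₀ : tm.Γ tm.k₀ ≃ Bool) (e₁ : tm.Γ tm.k₁ ≃ Bool)
      (f : ℕ → ℕ) (c : ℕ), Computable f ∧
      ∀ (n : ℕ) (G : SimpleGraph (Fin n)) (k : ℕ),
        ∃ b : Bool, (b = true ↔ cr G ≤ k) ∧
          Nonempty (Turing.TM2OutputsInTime tm
            ((bits (matrix G, List.replicate k ())).map e₀.invFun)
            (some ((bits b).map e₁.invFun)) (f k * (n + 1) ^ c)) := by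
  obtain ⟨tm, e₀, e₁, f, c, hf, h⟩ := Pool.Agent.NPC.Q224CR.fpt
  refine ⟨tm, e₀, e₁, fun k => f k * (2 * k + 7) ^ c, 2 * c, ?_, fun n G k => ?_⟩
  · have hpow : Primrec₂ (fun a b : ℕ => a ^ b) := Primrec₂.unpaired'.1 Nat.Primrec.pow
    have h1 : Primrec (fun k : ℕ => (2 * k + 7) ^ c) :=
      hpow.comp (Primrec.nat_add.comp (Primrec.nat_mul.comp (Primrec.const 2) Primrec.id)
        (Primrec.const 7)) (Primrec.const c)
    exact Primrec.nat_mul.to_comp.comp hf h1.to_comp
  · refine ⟨alg (matrix G, List.replicate k ()), (alg_iff G k).trans (cr_le_iff G k).symm, ?_⟩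
    obtain ⟨h'⟩ := h (matrix G, List.replicate k ())
    refine ⟨outputs_conv rfl rfl ?_ h'⟩
    have e : Pool.Agent.NPC.Q224CR.kap (matrix G, List.replicate k ()) = k := by
      simp [Pool.Agent.NPC.Q224CR.kap]
    rw [e]
    calc f k * ((bits (matrix G, List.replicate k ())).length + 1) ^ c
        ≤ f k * ((2 * k + 7) * (n + 1) ^ 2) ^ c :=
          Nat.mul_le_mul_left _ (Nat.pow_le_pow_left (Pool.Agent.NPC.Q224CR.bits_len G k) c)
      _ = f k * (2 * k + 7) ^ c * (n + 1) ^ (2 * c) := by
          rw [mul_pow, ← pow_mul, mul_assoc]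

end Pool.Agent.Results.MP_3f5cd8_lc.ColourReversalFPT
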